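import Pool.Agent.Helper7.EC_E.GoalsR

/-!
# MP_ecc237_nt, packet CE: size of `S_r` off the real line.
-/

set_option autoImplicit false

open MeasureTheory Filter Topology Set

namespace EC237.ZE.PkCE

open Complex

theorem exp_two (c : ℤ) (T : ℝ) :
    ‖Complex.exp (2 * I * (Real.pi * ((c:ℂ) + I * T) / 6))‖ = Real.exp (-(Real.pi * T / 3)) := by
  rw [Complex.norm_exp]
  congr 1
  simp
  ring

theorem exp_two' (c : ℤ) (T : ℝ) :
    ‖Complex.exp (2 * I * (Real.pi * ((c:ℂ) + -(I * T)) / 6))‖ = Real.exp (Real.pi * T / 3) := by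
  rw [Complex.norm_exp]
  congr 1
  simp
  ring

/-- `δ = 1 - e^{-π/3}` -/
noncomputable def del : ℝ := 1 - Real.exp (-(Real.pi / 3))

theorem del_pos : 0 < del := by
  unfold del
  have : Real.exp (-(Real.pi / 3)) < 1 := by
    rw [Real.exp_lt_one_iff]
    have := Real.pi_pos
    linarith
  linarith

theorem exp_le (T : ℝ) (hT : 1 ≤ T) : Real.exp (-(Real.pi * T / 3)) ≤ Real.exp (-T) := by
  apply Real.exp_le_exp.2
  have := Real.pi_gt_three
  nlinarith

theorem exp_le' (T : ℝ) (hT : 1 ≤ T) : Real.exp (-(Real.pi * T / 3)) ≤ Real.exp (-(Real.pi / 3)) := by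
  apply Real.exp_le_exp.2
  have := Real.pi_gt_three
  nlinarith

theorem one_sub (T : ℝ) (hT : 1 ≤ T) : del ≤ 1 - Real.exp (-(Real.pi * T / 3)) := by
  unfold del
  linarith [exp_le' T hT]

theorem cot_up (c : ℤ) (T : ℝ) (hT : 1 ≤ T) :
    ‖Sf 1 c (I * T) + I * (Real.pi / 6)‖ ≤ (Real.pi / 3 / del) * Real.exp (-T) := by
  have hd := del_pos
  have hpi := Real.pi_pos
  unfold Sf
  rw [if_pos rfl, Complex.cot_eq_exp_ratio]
  set w := Complex.exp (2 * I * (Real.pi * ((c:ℂ) + I * T) / 6)) with hw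
  have hn : ‖w‖ = Real.exp (-(Real.pi * T / 3)) := exp_two c T
  have h1 : del ≤ ‖w - 1‖ := by
    have := norm_sub_norm_le (1:ℂ) w
    rw [norm_one, hn] at this
    rw [norm_sub_rev]
    linarith [one_sub T hT]
  have hne : w - 1 ≠ 0 := by
    intro h
    rw [h, norm_zero] at h1
    linarith
  have e : (Real.pi / 6 : ℂ) * ((w + 1) / (I * (1 - w))) + I * (Real.pi / 6) =
      (Real.pi / 3 : ℂ) * (I * w / (w - 1)) := by
    have hne' : (1 - w) ≠ 0 := by
      intro h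
      apply hne
      linear_combination -h
    have hI := Complex.I_sq
    field_simp
    ring_nf
    simp only [hI]
    ring
  have e2 : ‖(Real.pi / 3 : ℂ)‖ = Real.pi / 3 := by
    rw [show (Real.pi / 3 : ℂ) = ((Real.pi / 3 : ℝ) : ℂ) by push_cast; rfl]
    rw [Complex.norm_real, Real.norm_eq_abs, abs_of_pos (by positivity)]
  have e3 : ‖(Real.pi / 3 : ℂ) * (I * w / (w - 1))‖ =
      Real.pi / 3 * (Real.exp (-(Real.pi * T / 3)) / ‖w - 1‖) := by
    rw [norm_mul, e2, norm_div, norm_mul, Complex.norm_I, one_mul, hn]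
  rw [e, e3]
  have h2 : Real.exp (-(Real.pi * T / 3)) / ‖w - 1‖ ≤ Real.exp (-T) / del := by
    apply div_le_div₀ (Real.exp_pos _).le (exp_le T hT) hd h1
  calc Real.pi / 3 * (Real.exp (-(Real.pi * T / 3)) / ‖w - 1‖) ≤
      Real.pi / 3 * (Real.exp (-T) / del) := by
        apply mul_le_mul_of_nonneg_left h2 (by positivity)
    _ = _ := by field_simp

theorem Sf_one_neg (c : ℤ) (ξ : ℂ) : Sf 1 c (-ξ) = -Sf 1 (-c) ξ := by
  unfold Sf
  rw [if_pos rfl, if_pos rfl]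
  rw [show (Real.pi:ℂ) * ((c:ℂ) + -ξ) / 6 = -((Real.pi:ℂ) * (((-c:ℤ):ℂ) + ξ) / 6) by
    push_cast; ring]
  have : ∀ z : ℂ, Complex.cot (-z) = -Complex.cot z := by
    intro z
    unfold Complex.cot
    rw [Complex.cos_neg, Complex.sin_neg, div_neg]
  rw [this]
  ring

theorem cot_down (c : ℤ) (T : ℝ) (hT : 1 ≤ T) :
    ‖Sf 1 c (-(I * T)) - I * (Real.pi / 6)‖ ≤ (Real.pi / 3 / del) * Real.exp (-T) := by
  rw [Sf_one_neg]
  have := cot_up (-c) T hT
  rw [← norm_neg]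
  rw [show -(-Sf 1 (-c) (I * T) - I * (Real.pi / 6)) = Sf 1 (-c) (I * T) + I * (Real.pi / 6) by ring]
  exact this

theorem Sf_neg (r : ℕ) (hr : 2 ≤ r) (c : ℤ) (ξ : ℂ) :
    ‖Sf r c (-ξ)‖ = ‖Sf r (-c) ξ‖ := by
  unfold Sf
  rw [if_neg (by omega), if_neg (by omega)]
  rw [← (Equiv.neg ℤ).tsum_eq]
  have : ∀ j : ℤ, 1 / (6 * (((Equiv.neg ℤ) j : ℤ):ℂ) + (c:ℂ) + -ξ) ^ r =
      (-1) ^ r * (1 / (6 * (j:ℂ) + ((-c:ℤ):ℂ) + ξ) ^ r) := by
    intro j
    have e : (6 * (((Equiv.neg ℤ) j : ℤ):ℂ) + (c:ℂ) + -ξ) = -(6 * (j:ℂ) + ((-c:ℤ):ℂ) + ξ) := by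
      simp
      ring
    rw [e, neg_pow]
    rcases neg_one_pow_eq_or ℂ r with h | h <;> rw [h] <;> ring
  rw [tsum_congr this, tsum_mul_left, norm_mul]
  simp

theorem lips (k : ℕ) (hk : 1 ≤ k) (c : ℤ) (T : ℝ) (hT : 1 ≤ T) :
    ‖Sf (k + 1) c (I * T)‖ ≤ ((2 * Real.pi) ^ (k + 1) *
      (Real.exp (Real.pi / 3) * ∑' n : ℕ, (n:ℝ) ^ k * Real.exp (-(Real.pi / 3)) ^ n)) *
      Real.exp (-T) := by
  have hT0 : 0 < T := by linarith
  have hpi := Real.pi_pos
  unfold Sf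
  rw [if_neg (by omega)]
  have him : 0 < (((c:ℂ) + I * T) / 6).im := by
    simp
    linarith
  have hq := EisensteinSeries.qExpansion_identity hk ⟨((c:ℂ) + I * T) / 6, him⟩
  simp only at hq
  have e : ∀ j : ℤ, 1 / (6 * (j:ℂ) + (c:ℂ) + I * T) ^ (k + 1) =
      (1 / 6 ^ (k + 1)) * (1 / (((c:ℂ) + I * T) / 6 + (j:ℂ)) ^ (k + 1)) := by
    intro j
    rw [one_div_mul_one_div, ← mul_pow]
    congr 2
    ring
  have hr1 : Real.exp (-(Real.pi / 3)) < 1 := by
    rw [Real.exp_lt_one_iff]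
    linarith
  have hr0 : 0 ≤ Real.exp (-(Real.pi / 3)) := (Real.exp_pos _).le
  have hS : Summable (fun n : ℕ => (n:ℝ) ^ k * Real.exp (-(Real.pi / 3)) ^ n) :=
    summable_pow_mul_geometric_of_norm_lt_one k
      (by rw [Real.norm_eq_abs, abs_of_nonneg hr0]; exact hr1)
  have hbd : ∀ n : ℕ, ‖(n:ℂ) ^ k * Complex.exp (2 * Real.pi * I * (((c:ℂ) + I * T) / 6)) ^ n‖ ≤
      Real.exp (-T) * (Real.exp (Real.pi / 3) * ((n:ℝ) ^ k * Real.exp (-(Real.pi / 3)) ^ n)) := by
    intro n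
    rw [norm_mul, norm_pow, norm_pow, Complex.norm_natCast]
    rw [show (2 * Real.pi * I * (((c:ℂ) + I * T) / 6)) =
      (2 * I * (Real.pi * ((c:ℂ) + I * T) / 6)) by ring, exp_two]
    rcases Nat.eq_zero_or_pos n with h | h
    · subst h
      have : ((0:ℕ):ℝ) ^ k = 0 := by
        rw [Nat.cast_zero]
        exact zero_pow (by omega)
      rw [this]
      simp
    · have h1 : Real.exp (-(Real.pi * T / 3)) ^ n ≤
          Real.exp (-T) * (Real.exp (Real.pi / 3) * Real.exp (-(Real.pi / 3)) ^ n) := by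
        rw [← Real.exp_nat_mul, ← Real.exp_nat_mul, ← Real.exp_add, ← Real.exp_add]
        apply Real.exp_le_exp.2
        have hn : (1:ℝ) ≤ n := by exact_mod_cast h
        have h3 := Real.pi_gt_three
        nlinarith [mul_nonneg (mul_nonneg hpi.le (sub_nonneg.2 hn)) (sub_nonneg.2 hT)]
      calc (n:ℝ) ^ k * Real.exp (-(Real.pi * T / 3)) ^ n ≤
          (n:ℝ) ^ k * (Real.exp (-T) * (Real.exp (Real.pi / 3) * Real.exp (-(Real.pi / 3)) ^ n)) :=
            mul_le_mul_of_nonneg_left h1 (by positivity)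
        _ = _ := by ring
  have hS2 := (hS.mul_left (Real.exp (Real.pi / 3))).mul_left (Real.exp (-T))
  have hts := tsum_of_norm_bounded hS2.hasSum hbd
  rw [tsum_mul_left, tsum_mul_left] at hts
  rw [tsum_congr e, tsum_mul_left, hq, norm_mul, norm_mul]
  have n1 : ‖(1 / 6 ^ (k + 1) : ℂ)‖ ≤ 1 := by
    rw [norm_div, norm_one, norm_pow]
    simp only [Complex.norm_ofNat]
    rw [div_le_one (by positivity)]
    exact one_le_pow₀ (by norm_num)
  have n2 : ‖((-2 * Real.pi * I) ^ (k + 1) / (k.factorial : ℂ))‖ ≤ (2 * Real.pi) ^ (k + 1) := by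
    rw [norm_div, norm_pow, norm_mul, norm_mul, Complex.norm_I, mul_one, norm_neg,
      Complex.norm_ofNat, Complex.norm_real, Real.norm_eq_abs, abs_of_pos hpi,
      Complex.norm_natCast]
    apply div_le_self (by positivity)
    exact_mod_cast Nat.one_le_iff_ne_zero.2 (Nat.factorial_ne_zero k)
  calc _ ≤ 1 * ((2 * Real.pi) ^ (k + 1) * (Real.exp (-T) *
      (Real.exp (Real.pi / 3) * ∑' n : ℕ, (n:ℝ) ^ k * Real.exp (-(Real.pi / 3)) ^ n))) := by
        apply mul_le_mul n1 _ (by positivity) (by norm_num)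
        exact mul_le_mul n2 hts (norm_nonneg _) (by positivity)
    _ = _ := by ring

theorem thm : EC237.ZE.G_CE := by
  have hd := del_pos
  have hpi := Real.pi_pos
  set K : ℕ → ℝ := fun k => (2 * Real.pi) ^ (k + 1) *
      (Real.exp (Real.pi / 3) * ∑' n : ℕ, (n:ℝ) ^ k * Real.exp (-(Real.pi / 3)) ^ n) with hK
  have hK0 : ∀ k, 0 ≤ K k := by
    intro k
    have : 0 ≤ ∑' n : ℕ, (n:ℝ) ^ k * Real.exp (-(Real.pi / 3)) ^ n :=
      tsum_nonneg (fun n => by positivity)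
    simp only [hK]
    positivity
  refine ⟨Real.pi / 3 / del + K 1 + K 2 + K 3 , ?_, ?_⟩
  · have := hK0 1
    have := hK0 2
    have := hK0 3
    have : 0 < Real.pi / 3 / del := by positivity
    linarith
  intro c T hT
  have k1 := hK0 1
  have k2 := hK0 2
  have k3 := hK0 3
  have k0 : 0 < Real.pi / 3 / del := by positivity
  have hE := (Real.exp_pos (-T)).le
  refine ⟨(cot_down c T hT).trans ?_, (cot_up c T hT).trans ?_, ?_⟩
  · exact mul_le_mul_of_nonneg_right (by linarith) hE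
  · exact mul_le_mul_of_nonneg_right (by linarith) hE
  · intro r hr hr4
    have hup : ∀ c : ℤ, ‖Sf r c (I * T)‖ ≤ (Real.pi / 3 / del + K 1 + K 2 + K 3) * Real.exp (-T) := by
      intro c
      have h : r = 1 + 1 ∨ r = 2 + 1 ∨ r = 3 + 1 := by omega
      rcases h with h | h | h
      · rw [h]
        exact (lips 1 (by norm_num) c T hT).trans (mul_le_mul_of_nonneg_right
          (show K 1 ≤ _ by linarith) hE)
      · rw [h]
        exact (lips 2 (by norm_num) c T hT).trans (mul_le_mul_of_nonneg_right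
          (show K 2 ≤ _ by linarith) hE)
      · rw [h]
        exact (lips 3 (by norm_num) c T hT).trans (mul_le_mul_of_nonneg_right
          (show K 3 ≤ _ by linarith) hE)
    refine ⟨?_, hup c⟩
    rw [Sf_neg r hr]
    exact hup (-c)

end EC237.ZE.PkCE
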